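import Mathlib

/-!
# MD/L-Sq: squares in quadratic extensions

PLAN.  `exists_root`: `F / K` of degree `2`: take `y ∈ F` not in the image of `K`; `1, y` is a basis, `y² = c y + d`, `θ = y - c/2`, `θ² = d + c²/4 = b ∈ K`; `b ≠ 0` (else `θ = 0`, `y ∈ K`), and `b` is no square in `K`
(`b = r²` gives `(θ - r)(θ + r) = 0`, `θ = ± r ∈ K`).  `not_sq_quad`: `θ ∉ K` (`a` is no square), so `1, θ` is a basis of `F`; if `b = (x + y θ)²` then `b = x² + a y²` and `2 x y = 0`, so `b = x²` or `b = a y²`, and
`a b = (a y)²`; both are excluded.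
-/

namespace Pool.Agent.MD

private theorem lin2 {K : Type} [Field K] {F : Type} [Field F] [Algebra K F] (θ : F)
    (hθ : ∀ x : K, algebraMap K F x ≠ θ) : LinearIndependent K ![(1 : F), θ] := by
  rw [LinearIndependent.pair_iff]
  intro s t h
  rw [Algebra.smul_def, Algebra.smul_def, mul_one] at h
  have ht : t = 0 := by
    by_contra ht
    have ht' : algebraMap K F t ≠ 0 := fun h0 => ht ((algebraMap K F).injective (by rw [h0, map_zero]))
    apply hθ (-(s / t))
    rw [map_neg, map_div₀]
    field_simp
    linear_combination -h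
  subst ht
  rw [map_zero, zero_mul, add_zero] at h
  exact ⟨(algebraMap K F).injective (by rw [h, map_zero]), rfl⟩

private theorem span2 {K : Type} [Field K] {F : Type} [Field F] [Algebra K F] (θ : F)
    (hθ : ∀ x : K, algebraMap K F x ≠ θ) (hd : Module.finrank K F = 2) (z : F) :
    ∃ x y : K, z = algebraMap K F x + algebraMap K F y * θ := by
  have hli := lin2 θ hθ
  have hs := hli.span_eq_top_of_card_eq_finrank (by simp [hd])
  have hz : z ∈ Submodule.span K (Set.range ![(1 : F), θ]) := by rw [hs]; trivial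
  rw [Matrix.range_cons, Matrix.range_cons, Matrix.range_empty, Set.union_empty,
    Set.singleton_union, Submodule.mem_span_pair] at hz
  obtain ⟨x, y, h⟩ := hz
  refine ⟨x, y, ?_⟩
  rw [← h, Algebra.smul_def, Algebra.smul_def, mul_one]

/-- squares in a quadratic extension -/
theorem not_sq_quad {K : Type} [Field K] [CharZero K] {F : Type} [Field F] [Algebra K F]
    {a b : K} (ha : ¬ IsSquare a) (hb : ¬ IsSquare b) (hab : ¬ IsSquare (a * b)) (θ : F)
    (hθ : θ ^ 2 = algebraMap K F a) (hd : Module.finrank K F = 2) :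
    ¬ IsSquare (algebraMap K F b) := by
  have hinj : Function.Injective (algebraMap K F) := (algebraMap K F).injective
  have hn : ∀ x : K, algebraMap K F x ≠ θ := by
    intro x hx
    apply ha
    refine ⟨x, hinj ?_⟩
    rw [map_mul, hx, ← hθ, sq]
  rintro ⟨z, hz⟩
  obtain ⟨x, y, rfl⟩ := span2 θ hn hd z
  have hli := lin2 θ hn
  rw [LinearIndependent.pair_iff] at hli
  have h1 := hli (x ^ 2 + a * y ^ 2 - b) (2 * x * y) (by
    rw [Algebra.smul_def, Algebra.smul_def, mul_one]
    simp only [map_sub, map_add, map_mul, map_pow, map_ofNat]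
    rw [← hθ, hz]
    ring)
  obtain ⟨h1, h2⟩ := h1
  have h3 : x = 0 ∨ y = 0 := by
    rcases mul_eq_zero.1 h2 with h | h
    · left
      rcases mul_eq_zero.1 h with h | h
      · exact absurd h two_ne_zero
      · exact h
    · exact Or.inr h
  rcases h3 with h | h
  · subst h
    apply hab
    exact ⟨a * y, by linear_combination -a * h1⟩
  · subst h
    apply hb
    exact ⟨x, by linear_combination -h1⟩

/-- a quadratic extension is generated by a square root -/
theorem exists_root {K : Type} [Field K] [CharZero K] (F : Type) [Field F] [Algebra K F]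
    (hd : Module.finrank K F = 2) : ∃ (b : Kˣ) (θ : F), ¬ IsSquare b ∧
      θ ^ 2 = algebraMap K F (b : K) := by
  have hinj : Function.Injective (algebraMap K F) := (algebraMap K F).injective
  have hns : ∃ y : F, ∀ x : K, algebraMap K F x ≠ y := by
    by_contra h
    push Not at h
    have hb : (⊥ : Subalgebra K F) = ⊤ := by
      rw [eq_top_iff]
      intro y _
      obtain ⟨x, hx⟩ := h y
      exact Algebra.mem_bot.2 ⟨x, hx⟩
    have h1 := Subalgebra.bot_eq_top_iff_finrank_eq_one.1 hb
    omega
  obtain ⟨y, hy⟩ := hns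
  obtain ⟨d, c, h⟩ := span2 y hy hd (y ^ 2)
  have hch : CharZero F := charZero_of_injective_algebraMap hinj
  set θ : F := y - algebraMap K F (c / 2) with hθ
  have hθ2 : θ ^ 2 = algebraMap K F (d + c ^ 2 / 4) := by
    rw [hθ]
    simp only [map_add, map_div₀, map_pow, map_ofNat]
    linear_combination h
  have hnθ : ∀ x : K, algebraMap K F x ≠ θ := by
    intro x hx
    apply hy (x + c / 2)
    rw [map_add, hx, hθ]
    ring
  have hb0 : d + c ^ 2 / 4 ≠ 0 := by
    intro h0
    rw [h0, map_zero] at hθ2
    have : θ = 0 := by simpa using hθ2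
    exact hnθ 0 (by rw [map_zero, this])
  refine ⟨Units.mk0 _ hb0, θ, ?_, by rw [Units.val_mk0, hθ2]⟩
  rintro ⟨r, hr⟩
  have hr' : d + c ^ 2 / 4 = (r : K) * (r : K) := by
    have := congrArg Units.val hr
    simpa using this
  rw [hr', map_mul] at hθ2
  have h3 : (θ - algebraMap K F r) * (θ + algebraMap K F r) = 0 := by
    linear_combination hθ2
  rcases mul_eq_zero.1 h3 with h4 | h4
  · exact hnθ r (sub_eq_zero.1 h4).symm
  · apply hnθ (-r)
    rw [map_neg]
    exact (eq_neg_of_add_eq_zero_left h4).symm

end Pool.Agent.MD
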