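import Pool.Agent.LD.L.Apx
import Pool.Agent.LD.L.ExEmb
import Pool.Agent.LD.L.RelK

/-!
# MD/L-Fix: elements of decomposition groups fix the square roots of local squares

PLAN.  `fix_of_lsq` (converse of `lsq_of_fix`, LD/L/Apx).  `i = emb p`, norm on `AlgebraicClosure ℚ_[p]` (spectral norm; as in LD/L/Pl, LD/L/Apx).  `g ∈ decomp ℚ_[p] i`: `σ` with `i (g x) = σ (i x)` and
`‖σ y‖ = ‖y‖` (`spectralNorm_eq_of_equiv`-like; see how LD/L uses the invariance of the norm).  Choose `k` with `p^(-k)` very small compared to `‖2‖` (`‖(2 : Ω)‖ > 0`).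
`LSq w x` gives `r : Fˣ` with `closeOne w k' (x r²)`, which means that `‖i (ψ (x r² - 1))‖` is small: for this a lemma converse to `isPl_close`: `closeOne w k' y` implies `‖i (ψ (y - 1))‖ ≤ ρ^k'` where
`ρ < 1` is a constant depending on `w` only (write `y - 1 = a / b`, `a b : 𝓞 F`, `b ∉ w`, `a ∈ w^k'`; `w` is finitely generated: `ρ` = maximum of the norms of generators, elements of `w^k'` have
norm at most `ρ^k'` (ultrametric), and `‖i (ψ b)‖ = 1` for `b ∉ w` by `IsPl` and `int_le_one`).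
Put `y = i (s ψ(r))`; `y² = i (ψ (x r²))`, so `‖(y - 1)(y + 1)‖` is small; replacing `r` by `-r` we may assume that `‖y - 1‖` is small (`< ‖2‖`): otherwise both factors have norm `≥ ‖2‖`-ish:
if `‖y - 1‖ ≥ δ` and `‖y + 1‖ ≥ δ` then the product is `≥ δ²`.  If `g s ≠ s` then `g s = - s` (`(g s)² = g (ψ x) = ψ x = s²` since `g ∈ stb ψ`), and `g (ψ r) = ψ r`, so `σ y = i (g (s ψ r)) = - y`, so
`‖-y - 1‖ = ‖σ (y - 1)‖ = ‖y - 1‖ < ‖2‖` and `‖2‖ = ‖(1 - y) + (1 + y)‖ < ‖2‖`: contradiction.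
-/

namespace Pool.Agent.MD

open NumberField IsDedekindDomain Pool.Agent.HWR Pool.Agent.QD Pool.Agent.H73.DU
  Pool.Agent.H73.AL Pool.Agent.LD

private theorem fx_nn {p : ℕ} [Fact p.Prime] (a b : AlgebraicClosure ℚ_[p]) :
    ‖a + b‖ ≤ max ‖a‖ ‖b‖ := PadicAlgCl.isNonarchimedean p a b

private theorem fx_add {p : ℕ} [Fact p.Prime] {F : Type} [Field F] [NumberField F]
    (ψ : F →+* AlgebraicClosure ℚ) (x y : 𝓞 F) :
    emb p (ψ ((x + y : 𝓞 F) : F)) = emb p (ψ (x : F)) + emb p (ψ (y : F)) := by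
  rw [← map_add, ← map_add]
  rfl

private theorem fx_mul {p : ℕ} [Fact p.Prime] {F : Type} [Field F] [NumberField F]
    (ψ : F →+* AlgebraicClosure ℚ) (x y : 𝓞 F) :
    emb p (ψ ((x * y : 𝓞 F) : F)) = emb p (ψ (x : F)) * emb p (ψ (y : F)) := by
  rw [← map_mul, ← map_mul]
  rfl

private theorem fx_zero {p : ℕ} [Fact p.Prime] {F : Type} [Field F] [NumberField F]
    (ψ : F →+* AlgebraicClosure ℚ) : ‖emb p (ψ ((0 : 𝓞 F) : F))‖ = 0 := by
  have h1 : ((0 : 𝓞 F) : F) = 0 := rfl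
  rw [h1, map_zero, map_zero, norm_zero]

private theorem fx_fin {p : ℕ} [Fact p.Prime] {F : Type} [Field F] [NumberField F]
    (ψ : F →+* AlgebraicClosure ℚ) (S : Finset (𝓞 F))
    (h : ∀ x ∈ S, ‖emb p (ψ (x : F))‖ < 1) :
    ∃ ρ : ℝ, 0 ≤ ρ ∧ ρ < 1 ∧ ∀ x ∈ S, ‖emb p (ψ (x : F))‖ ≤ ρ := by
  classical
  induction S using Finset.induction_on with
  | empty => exact ⟨0, le_refl _, one_pos, by simp⟩
  | insert a S _ ih =>
    obtain ⟨ρ, h0, h1, h2⟩ := ih (fun x hx => h x (Finset.mem_insert_of_mem hx))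
    refine ⟨max ρ ‖emb p (ψ (a : F))‖, le_max_of_le_left h0,
      max_lt h1 (h a (Finset.mem_insert_self a S)), ?_⟩
    intro x hx
    rcases Finset.mem_insert.1 hx with rfl | hx
    · exact le_max_right _ _
    · exact (h2 x hx).trans (le_max_left _ _)

private theorem fx_rho {p : ℕ} [Fact p.Prime] {F : Type} [Field F] [NumberField F]
    {ψ : F →+* AlgebraicClosure ℚ} {w : HeightOneSpectrum (𝓞 F)} (hw : IsPl p ψ w) :
    ∃ ρ : ℝ, 0 ≤ ρ ∧ ρ < 1 ∧ ∀ x ∈ w.asIdeal, ‖emb p (ψ (x : F))‖ ≤ ρ := by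
  obtain ⟨S, hS⟩ := (IsNoetherian.noetherian w.asIdeal : w.asIdeal.FG)
  have h1 : ∀ x ∈ S, ‖emb p (ψ (x : F))‖ < 1 := by
    intro x hx
    apply (hw x).1
    rw [← hS]
    exact Submodule.subset_span hx
  obtain ⟨ρ, h0, h2, h3⟩ := fx_fin ψ S h1
  refine ⟨ρ, h0, h2, ?_⟩
  intro x hx
  rw [← hS] at hx
  induction hx using Submodule.span_induction with
  | mem x hx => exact h3 x hx
  | zero => rw [fx_zero]; exact h0
  | add x y _ _ hx hy =>
    rw [fx_add]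
    exact (fx_nn _ _).trans (max_le hx hy)
  | smul c x _ hx =>
    have h4 : c • x = c * x := rfl
    rw [h4, fx_mul, norm_mul]
    exact (mul_le_of_le_one_left (norm_nonneg _) (int_le_one p ψ c)).trans hx

private theorem fx_pow {p : ℕ} [Fact p.Prime] {F : Type} [Field F] [NumberField F]
    {ψ : F →+* AlgebraicClosure ℚ} {w : HeightOneSpectrum (𝓞 F)} {ρ : ℝ} (h0 : 0 ≤ ρ)
    (h : ∀ x ∈ w.asIdeal, ‖emb p (ψ (x : F))‖ ≤ ρ) (k : ℕ) :
    ∀ x ∈ w.asIdeal ^ k, ‖emb p (ψ (x : F))‖ ≤ ρ ^ k := by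
  induction k with
  | zero =>
    intro x _
    rw [pow_zero]
    exact int_le_one p ψ x
  | succ k ih =>
    intro x hx
    rw [pow_succ] at hx
    refine Submodule.mul_induction_on hx ?_ ?_
    · intro m hm n hn
      rw [fx_mul, norm_mul, pow_succ]
      exact mul_le_mul (ih m hm) (h n hn) (norm_nonneg _) (pow_nonneg h0 k)
    · intro a b ha hb
      rw [fx_add]
      exact (fx_nn _ _).trans (max_le ha hb)

private theorem fx_close {p : ℕ} [Fact p.Prime] {F : Type} [Field F] [NumberField F]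
    {ψ : F →+* AlgebraicClosure ℚ} {w : HeightOneSpectrum (𝓞 F)} (hw : IsPl p ψ w) {ρ : ℝ}
    (h0 : 0 ≤ ρ) (h : ∀ x ∈ w.asIdeal, ‖emb p (ψ (x : F))‖ ≤ ρ) (k : ℕ) (y : F)
    (hy : closeOne w k y) : ‖emb p (ψ (y - 1))‖ ≤ ρ ^ k := by
  unfold closeOne at hy
  have h1 : w.valuation F (y - 1) ≤ 1 := by
    refine hy.trans ?_
    rw [← WithZero.exp_zero]
    exact WithZero.exp_le_exp.2 (by simp)
  obtain ⟨n, d, hnd⟩ := w.exists_primeCompl_mul_eq_of_integer (K := F) (y - 1) h1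
  have hd1 : w.valuation F (algebraMap (𝓞 F) F (d : 𝓞 F)) = 1 := by
    rw [HeightOneSpectrum.valuation_eq_one_iff_notMem]
    exact d.2
  have hn : n ∈ w.asIdeal ^ k := by
    rw [← HeightOneSpectrum.intValuation_le_pow_iff_mem,
      ← HeightOneSpectrum.valuation_of_algebraMap (K := F)]
    have h2 : w.valuation F (algebraMap (𝓞 F) F n) = w.valuation F (y - 1) := by
      rw [← hnd, map_mul, hd1, mul_one]
    rw [h2]
    exact hy
  have hn1 := fx_pow h0 h k n hn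
  have hd2 : ¬ ‖emb p (ψ ((d : 𝓞 F) : F))‖ < 1 := fun h => d.2 ((hw _).2 h)
  have hd3 : ‖emb p (ψ ((d : 𝓞 F) : F))‖ = 1 := le_antisymm (int_le_one p ψ d) (not_lt.1 hd2)
  have h3 : (y - 1) * ((d : 𝓞 F) : F) = (n : F) := hnd
  have h4 : ‖emb p (ψ (y - 1))‖ = ‖emb p (ψ (n : F))‖ := by
    rw [← h3, map_mul, map_mul, norm_mul, hd3, mul_one]
  rw [h4]
  exact hn1

private theorem fx_aut {p : ℕ} [Fact p.Prime] (σ : AlgebraicClosure ℚ_[p] ≃ₐ[ℚ_[p]]
    AlgebraicClosure ℚ_[p]) (a : AlgebraicClosure ℚ_[p]) : ‖σ a‖ = ‖a‖ := by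
  have h := (spectralNorm_eq_of_equiv σ a).symm
  exact h

theorem fix_of_lsq (p : ℕ) [Fact p.Prime] {F : Type} [Field F] [NumberField F]
    (ψ : F →+* AlgebraicClosure ℚ) {w : HeightOneSpectrum (𝓞 F)} (hw : IsPl p ψ w) (x : Fˣ)
    (s : AlgebraicClosure ℚ) (hs : s ^ 2 = ψ (x : F)) (h : LSq w x) :
    ∀ g ∈ decomp ℚ_[p] (emb p), g ∈ stb ψ → g s = s := by
  intro g hg hgs
  obtain ⟨σ, hσ⟩ := hg
  obtain ⟨ρ, h0, h1, h2⟩ := fx_rho hw
  have hgx : ∀ z : F, g (ψ z) = ψ z := by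
    intro z
    have h3 := MulAction.mem_stabilizer_iff.1 hgs
    have h4 := congrArg (fun q : F →+* AlgebraicClosure ℚ => q z) h3
    exact h4
  have h2pos : 0 < ‖(2 : AlgebraicClosure ℚ_[p])‖ := by
    rw [norm_pos_iff]
    exact two_ne_zero
  obtain ⟨k, hk⟩ := exists_pow_lt_of_lt_one (pow_pos h2pos 2) h1
  obtain ⟨r, hr⟩ := h k
  have hc := fx_close hw h0 h2 k _ hr
  have hlt : ‖emb p (ψ ((x : F) * (r : F) ^ 2 - 1))‖ < ‖(2 : AlgebraicClosure ℚ_[p])‖ ^ 2 :=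
    lt_of_le_of_lt hc hk
  set Y : AlgebraicClosure ℚ_[p] := emb p (s * ψ (r : F)) with hY
  have hY2 : emb p (ψ ((x : F) * (r : F) ^ 2 - 1)) = (Y - 1) * (Y + 1) := by
    have h5 : ψ ((x : F) * (r : F) ^ 2 - 1) = (s * ψ (r : F)) ^ 2 - 1 := by
      rw [map_sub, map_mul, map_pow, map_one, mul_pow, hs]
    rw [h5, map_sub, map_pow, map_one, ← hY]
    ring
  rw [hY2, norm_mul] at hlt
  by_contra hne
  have hneg : g s = - s := by
    have h6 : (g s) ^ 2 = s ^ 2 := by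
      rw [← map_pow, hs, hgx]
    rcases sq_eq_sq_iff_eq_or_eq_neg.1 h6 with h7 | h7
    · exact absurd h7 hne
    · exact h7
  have hσY : σ Y = - Y := by
    rw [hY, ← hσ, map_mul, hneg, hgx, neg_mul, map_neg]
  have e1 : ‖Y + 1‖ = ‖Y - 1‖ := by
    have h8 : σ (Y - 1) = -(Y + 1) := by
      rw [map_sub, map_one, hσY]
      ring
    rw [← fx_aut σ (Y - 1), h8, norm_neg]
  have h9 : ‖(2 : AlgebraicClosure ℚ_[p])‖ ≤ ‖Y - 1‖ := by
    have h10 : (2 : AlgebraicClosure ℚ_[p]) = (Y + 1) + (-(Y - 1)) := by ring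
    have h11 := fx_nn (Y + 1) (-(Y - 1))
    rw [← h10, norm_neg, e1, max_self] at h11
    exact h11
  rw [e1] at hlt
  have h12 : ‖(2 : AlgebraicClosure ℚ_[p])‖ ^ 2 ≤ ‖Y - 1‖ * ‖Y - 1‖ := by
    rw [sq]
    exact mul_le_mul h9 h9 h2pos.le (norm_nonneg _)
  linarith

end Pool.Agent.MD
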