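import Pool.Agent.MD.L.FixT
import Pool.Agent.MD.L.Sq

/-!
# MD/L-V4: the relation between the fields of a biquadratic extension

PLAN.  `emb_quad`: `F / K` of degree `2`, `θ² = b`, `b` no square in `K` (so `θ ∉ K`, `F = K(θ)`, `minpoly = X² - b`).  For `φ : K →+* Ω`, `Ω = AlgebraicClosure ℚ`, the map `ψ ↦ ψ θ` is a bijection from
`{ψ : F →+* Ω // ψ.comp (algebraMap K F) = φ}` to `{s // s² = φ b}` (injective: `1, θ` generate `F` over `K`; both sets have two elements, or surjective by lifting: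
`IntermediateField.exists_algHom_adjoin..`, `AdjoinRoot.lift`, or `PowerBasis.liftEquiv`), and for `g : GQ` with `g • φ = φ`: `g • ψ = ψ` iff `g (ψ θ) = ψ θ`.
`rel_v4`: let `U ∈ famT T`.  `mark F U` is the number of `ψ : F →+* Ω` fixed by `U` (`pch`, `fx`).  The restriction of a fixed embedding to `K` is fixed, so
`mark F U = ∑ φ ∈ fixed embeddings of K, #{ψ over φ fixed by U}` (`Finset.card_eq_sum_card_fiberwise`, the set of embeddings is finite).  For a fixed `φ` (`U ≤ stb φ`) choose `s, t : Ω` with `s² = φ a`, `t² = φ b`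
(so `(s t)² = φ (a b)`).  The number of fixed `ψ` over `φ` is for `Fa`: `2` if `U` fixes `s`, else `0` (both roots `± s` are fixed or none); `Fb`: the same with `t`; `Fc`: with `s t`; for `F4 / Fa / K`
(`θ4² = b`, `b` is no square in `Fa` since `b`, `a b` are no squares in `K`: if `b = (x + y θa)²` then `x y = 0`, `b = x²` or `b = a y²`): `4` if `U` fixes `s` and `t`, else `0`.
So it is enough that for every `φ` fixed by `U`: `2 + [s, t fixed] 4 = [s fixed] 2 + [t fixed] 2 + [s t fixed] 2`.  By `fix_T` either `U` fixes `s` (then `t` is fixed iff `s t` is: true in both cases), or `U` is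
cyclic, generated by `u`: `u s = ± s`, `u t = ± t`, `u (s t)` the product: four cases.
Sum over the fixed `φ`; `Rel T [K, K, F4] [Fa, Fb, Fc]` unfolds to equality of sums of marks.
-/

namespace Pool.Agent.MD

open NumberField IsDedekindDomain Pool.Agent.HWR Pool.Agent.QD Pool.Agent.H73.DU
  Pool.Agent.H73.AL Pool.Agent.LD

open scoped Classical in
private theorem v4_gen {K F : Type} [Field K] [Field F] [Algebra K F] {b : K}
    (hb : ¬ IsSquare b) {θ : F} (hθ : θ ^ 2 = algebraMap K F b)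
    (hd : Module.finrank K F = 2) (x : F) :
    ∃ α β : K, x = algebraMap K F α + algebraMap K F β * θ := by
  have hθK : ∀ c : K, algebraMap K F c ≠ θ := by
    intro c hc
    apply hb
    refine ⟨c, ?_⟩
    apply (algebraMap K F).injective
    rw [← hθ, ← hc, map_mul, pow_two]
  have hli : LinearIndependent K ![(1 : F), θ] := by
    rw [LinearIndependent.pair_iff]
    intro α β h
    have hβ : β = 0 := by
      by_contra hne
      apply hθK (-(β⁻¹ * α))
      rw [Algebra.smul_def, Algebra.smul_def, mul_one] at h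
      have h1 : algebraMap K F β ≠ 0 := by
        rwa [Ne, map_eq_zero]
      rw [map_neg, map_mul, map_inv₀]
      field_simp
      linear_combination -h
    refine ⟨?_, hβ⟩
    rw [hβ, zero_smul, add_zero, Algebra.smul_def, mul_one, map_eq_zero] at h
    exact h
  have hspan := hli.span_eq_top_of_card_eq_finrank (by simp [hd])
  have hx : x ∈ Submodule.span K (Set.range ![(1 : F), θ]) := by
    rw [hspan]
    trivial
  rw [Matrix.range_cons, Matrix.range_cons, Matrix.range_empty, Set.union_empty,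
    Set.singleton_union, Submodule.mem_span_pair] at hx
  obtain ⟨α, β, h⟩ := hx
  refine ⟨α, β, ?_⟩
  rw [← h, Algebra.smul_def, Algebra.smul_def, mul_one]

private theorem v4_card {K F : Type} [Field K] [NumberField K] [Field F] [NumberField F]
    [Algebra K F] (hd : Module.finrank K F = 2) (φ : K →+* AlgebraicClosure ℚ) :
    Nat.card {ψ : F →+* AlgebraicClosure ℚ // ψ.comp (algebraMap K F) = φ} = 2 := by
  letI : Algebra K (AlgebraicClosure ℚ) := φ.toAlgebra
  have : FiniteDimensional K F := Module.finite_of_finrank_pos (by rw [hd]; norm_num)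
  have h := AlgHom.card K F (AlgebraicClosure ℚ)
  rw [hd] at h
  rw [← h, ← Nat.card_eq_fintype_card]
  refine Nat.card_congr
    { toFun := fun ψ => { ψ.1 with commutes' := fun r => RingHom.congr_fun ψ.2 r }
      invFun := fun ψ => ⟨ψ.toRingHom, RingHom.ext fun r => ψ.commutes r⟩
      left_inv := fun ψ => rfl
      right_inv := fun ψ => rfl }

private noncomputable def v4_rst {K F : Type} [Field K] [Field F] (ι : K →+* F)
    (U : Subgroup GQ) (ψ : fx (F →+* AlgebraicClosure ℚ) U) :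
    fx (K →+* AlgebraicClosure ℚ) U :=
  ⟨(ψ : F →+* AlgebraicClosure ℚ).comp ι, fun u hu => by
    have h : u • (ψ : F →+* AlgebraicClosure ℚ) = ψ := ψ.2 u hu
    ext x
    exact RingHom.congr_fun h (ι x)⟩

private theorem v4_ext {K F : Type} [Field K] [Field F] [Algebra K F] {b : K}
    (hb : ¬ IsSquare b) {θ : F} (hθ : θ ^ 2 = algebraMap K F b)
    (hd : Module.finrank K F = 2) (ψ ψ' : F →+* AlgebraicClosure ℚ)
    (h1 : ψ.comp (algebraMap K F) = ψ'.comp (algebraMap K F)) (h2 : ψ θ = ψ' θ) : ψ = ψ' := by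
  ext x
  obtain ⟨α, β, rfl⟩ := v4_gen hb hθ hd x
  have e1 : ψ (algebraMap K F α) = ψ' (algebraMap K F α) := RingHom.congr_fun h1 α
  have e2 : ψ (algebraMap K F β) = ψ' (algebraMap K F β) := RingHom.congr_fun h1 β
  rw [map_add, map_mul, map_add, map_mul, e1, e2, h2]

open scoped Classical in
private theorem v4_two {K F : Type} [Field K] [NumberField K] [Field F] [NumberField F]
    [Algebra K F] {b : K} (hb : ¬ IsSquare b) {θ : F} (hθ : θ ^ 2 = algebraMap K F b)
    (hd : Module.finrank K F = 2) (U : Subgroup GQ) (φ : fx (K →+* AlgebraicClosure ℚ) U)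
    (s : AlgebraicClosure ℚ) (hs : s ^ 2 = (φ : K →+* AlgebraicClosure ℚ) b) :
    Nat.card {ψ : fx (F →+* AlgebraicClosure ℚ) U // v4_rst (algebraMap K F) U ψ = φ} =
      if ∀ u ∈ U, u s = s then 2 else 0 := by
  have hval : ∀ ψ : F →+* AlgebraicClosure ℚ, ψ.comp (algebraMap K F) = φ →
      ψ θ = s ∨ ψ θ = -s := by
    intro ψ hψ
    apply sq_eq_sq_iff_eq_or_eq_neg.mp
    rw [← map_pow, hθ, hs, ← hψ]
    rfl
  split_ifs with h
  · rw [← v4_card hd (φ : K →+* AlgebraicClosure ℚ)]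
    refine Nat.card_congr
      { toFun := fun ψ => ⟨(ψ.1 : F →+* AlgebraicClosure ℚ), congrArg Subtype.val ψ.2⟩
        invFun := fun ψ => ⟨⟨ψ.1, fun u hu => ?_⟩, Subtype.ext ψ.2⟩
        left_inv := fun ψ => rfl
        right_inv := fun ψ => rfl }
    apply v4_ext hb hθ hd
    · have h1 : u • (φ : K →+* AlgebraicClosure ℚ) = φ := φ.2 u hu
      rw [← ψ.2] at h1
      exact h1
    · rw [smul_emb]
      rcases hval ψ.1 ψ.2 with h2 | h2
      · rw [h2, h u hu]
      · rw [h2, map_neg, h u hu]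
  · push Not at h
    obtain ⟨u, hu, hus⟩ := h
    have : IsEmpty {ψ : fx (F →+* AlgebraicClosure ℚ) U // v4_rst (algebraMap K F) U ψ = φ} := by
      refine ⟨fun ψ => hus ?_⟩
      have h1 : u • (ψ.1 : F →+* AlgebraicClosure ℚ) = ψ.1 := ψ.1.2 u hu
      have h2 := RingHom.congr_fun h1 θ
      rw [smul_emb] at h2
      rcases hval ψ.1 (congrArg Subtype.val ψ.2) with h3 | h3
      · rwa [h3] at h2
      · rw [h3, map_neg, neg_inj] at h2
        exact h2
    exact Nat.card_of_isEmpty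

private theorem v4_sum {X Y : Type} [Fintype X] [Finite Y] (π : Y → X) :
    Nat.card Y = ∑ x, Nat.card {y : Y // π y = x} := by
  rw [← Nat.card_congr (Equiv.sigmaFiberEquiv π), Nat.card_sigma]

open scoped Classical in
private theorem v4_four {K F F4 : Type} [Field K] [NumberField K] [Field F] [NumberField F]
    [Field F4] [NumberField F4] [Algebra K F] [Algebra F F4] {a b : K} (ha : ¬ IsSquare a)
    {θ : F} (hθ : θ ^ 2 = algebraMap K F a) (hd : Module.finrank K F = 2)
    (hb : ¬ IsSquare (algebraMap K F b)) {θ4 : F4}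
    (hθ4 : θ4 ^ 2 = algebraMap F F4 (algebraMap K F b)) (hd4 : Module.finrank F F4 = 2)
    (U : Subgroup GQ) (φ : fx (K →+* AlgebraicClosure ℚ) U)
    (s t : AlgebraicClosure ℚ) (hs : s ^ 2 = (φ : K →+* AlgebraicClosure ℚ) a)
    (ht : t ^ 2 = (φ : K →+* AlgebraicClosure ℚ) b) :
    Nat.card {ψ : fx (F4 →+* AlgebraicClosure ℚ) U //
      v4_rst ((algebraMap F F4).comp (algebraMap K F)) U ψ = φ} =
      (if ∀ u ∈ U, u s = s then 2 else 0) * (if ∀ u ∈ U, u t = t then 2 else 0) := by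
  have := Fintype.ofFinite {ψ : fx (F →+* AlgebraicClosure ℚ) U //
    v4_rst (algebraMap K F) U ψ = φ}
  let π : {ψ : fx (F4 →+* AlgebraicClosure ℚ) U //
      v4_rst ((algebraMap F F4).comp (algebraMap K F)) U ψ = φ} →
      {ψ : fx (F →+* AlgebraicClosure ℚ) U // v4_rst (algebraMap K F) U ψ = φ} :=
    fun ψ => ⟨v4_rst (algebraMap F F4) U ψ.1, ψ.2⟩
  rw [v4_sum π, ← v4_two ha hθ hd U φ s hs, Nat.card_eq_fintype_card (α := {ψ :
    fx (F →+* AlgebraicClosure ℚ) U // v4_rst (algebraMap K F) U ψ = φ}), ← smul_eq_mul,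
    ← Finset.card_univ, ← Finset.sum_const]
  refine Finset.sum_congr rfl fun ψ _ => ?_
  have hψ : (ψ.1 : F →+* AlgebraicClosure ℚ).comp (algebraMap K F) = φ :=
    congrArg Subtype.val ψ.2
  rw [← v4_two hb hθ4 hd4 U ψ.1 t (ht.trans (RingHom.congr_fun hψ b).symm)]
  refine Nat.card_congr
    { toFun := fun x => ⟨x.1.1, congrArg Subtype.val x.2⟩
      invFun := fun x => ⟨⟨x.1, (congrArg (v4_rst (algebraMap K F) U) x.2).trans ψ.2⟩,
        Subtype.ext x.2⟩
      left_inv := fun x => rfl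
      right_inv := fun x => rfl }

theorem rel_v4 (T : Finset ℕ) (K Fa Fb Fc F4 : NF) [Algebra K.F Fa.F] [Algebra K.F Fb.F]
    [Algebra K.F Fc.F] [Algebra Fa.F F4.F] (a b : (K.F)ˣ) (ha : ¬ IsSquare a)
    (hb : ¬ IsSquare b) (hab : ¬ IsSquare (a * b)) (θa : Fa.F) (θb : Fb.F) (θc : Fc.F)
    (θ4 : F4.F) (da : Module.finrank K.F Fa.F = 2) (db : Module.finrank K.F Fb.F = 2)
    (dc : Module.finrank K.F Fc.F = 2) (d4 : Module.finrank Fa.F F4.F = 2)
    (sa : θa ^ 2 = algebraMap K.F Fa.F (a : K.F)) (sb : θb ^ 2 = algebraMap K.F Fb.F (b : K.F))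
    (sc : θc ^ 2 = algebraMap K.F Fc.F ((a * b : (K.F)ˣ) : K.F))
    (s4 : θ4 ^ 2 = algebraMap Fa.F F4.F (algebraMap K.F Fa.F (b : K.F)))
    (hT : ∀ v : HeightOneSpectrum (𝓞 K.F), ¬ Away K.F T v → LSq v a) :
    Rel T [K, K, F4] [Fa, Fb, Fc] := by
  classical
  intro U hU
  have := Fintype.ofFinite (fx (K.F →+* AlgebraicClosure ℚ) U)
  have mK : mark K.F U = ∑ _φ : fx (K.F →+* AlgebraicClosure ℚ) U, (1 : ℤ) := by
    change (Nat.card (fx (K.F →+* AlgebraicClosure ℚ) U) : ℤ) = _
    rw [Nat.card_eq_fintype_card, Finset.sum_const, Finset.card_univ, nsmul_eq_mul, mul_one]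
  have mF : ∀ (F : NF) (ι : K.F →+* F.F), mark F.F U = ∑ φ : fx (K.F →+* AlgebraicClosure ℚ) U,
      ((Nat.card {ψ : fx (F.F →+* AlgebraicClosure ℚ) U // v4_rst ι U ψ = φ} : ℕ) : ℤ) := by
    intro F ι
    change (Nat.card (fx (F.F →+* AlgebraicClosure ℚ) U) : ℤ) = _
    rw [v4_sum (v4_rst ι U), Nat.cast_sum]
  have hsq : ∀ c : (K.F)ˣ, ¬ IsSquare c → ¬ IsSquare (c : K.F) := by
    rintro c hc ⟨r, hr⟩
    have hr0 : r ≠ 0 := by
      rintro rfl
      exact c.ne_zero (by rw [hr, mul_zero])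
    exact hc ⟨Units.mk0 r hr0, Units.ext hr⟩
  have ha' : ¬ IsSquare (a : K.F) := hsq a ha
  have hb' : ¬ IsSquare (b : K.F) := hsq b hb
  have hab' : ¬ IsSquare ((a : K.F) * (b : K.F)) := hsq (a * b) hab
  have hb4 : ¬ IsSquare (algebraMap K.F Fa.F (b : K.F)) := not_sq_quad ha' hb' hab' θa sa da
  simp only [List.map_cons, List.map_nil, List.sum_cons, List.sum_nil, add_zero]
  rw [mF Fa (algebraMap K.F Fa.F), mF Fb (algebraMap K.F Fb.F), mF Fc (algebraMap K.F Fc.F),
    mF F4 ((algebraMap Fa.F F4.F).comp (algebraMap K.F Fa.F)), mK, ← Finset.sum_add_distrib,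
    ← Finset.sum_add_distrib, ← Finset.sum_add_distrib, ← Finset.sum_add_distrib]
  refine Finset.sum_congr rfl fun φ _ => ?_
  obtain ⟨s, hs⟩ := IsAlgClosed.exists_pow_nat_eq
    ((φ : K.F →+* AlgebraicClosure ℚ) (a : K.F)) (n := 2) (by norm_num)
  obtain ⟨t, ht⟩ := IsAlgClosed.exists_pow_nat_eq
    ((φ : K.F →+* AlgebraicClosure ℚ) (b : K.F)) (n := 2) (by norm_num)
  have hst : (s * t) ^ 2 = (φ : K.F →+* AlgebraicClosure ℚ) ((a * b : (K.F)ˣ) : K.F) := by
    rw [mul_pow, hs, ht, ← map_mul]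
    rfl
  have hs0 : s ≠ 0 := by
    rintro rfl
    have h1 : (φ : K.F →+* AlgebraicClosure ℚ) (a : K.F) = 0 := by
      rw [← hs]
      norm_num
    exact a.ne_zero ((map_eq_zero _).1 h1)
  rw [v4_two ha' sa da U φ s hs, v4_two hb' sb db U φ t ht, v4_two (b := ((a * b : (K.F)ˣ) : K.F))
    hab' sc dc U φ (s * t) hst, v4_four ha' sa da hb4 s4 d4 U φ s t hs ht]
  have hUφ : U ≤ stb (φ : K.F →+* AlgebraicClosure ℚ) := fun u hu => φ.2 u hu
  rcases fix_T T (φ : K.F →+* AlgebraicClosure ℚ) a s hs hT U hU hUφ with ⟨g, rfl⟩ | h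
  · have hz : ∀ x : AlgebraicClosure ℚ, (∀ u ∈ Subgroup.zpowers g, u x = x) ↔ g x = x := by
      intro x
      constructor
      · intro h
        exact h g (Subgroup.mem_zpowers g)
      · intro h u hu
        have h1 : Subgroup.zpowers g ≤ MulAction.stabilizer GQ x := by
          rw [Subgroup.zpowers_le]
          exact h
        exact h1 hu
    have hg : ∀ (c : K.F) (x : AlgebraicClosure ℚ), x ^ 2 = (φ : K.F →+* AlgebraicClosure ℚ) c →
        g x = x ∨ g x = -x := by
      intro c x hx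
      apply sq_eq_sq_iff_eq_or_eq_neg.mp
      rw [← map_pow, hx]
      exact RingHom.congr_fun (φ.2 g (Subgroup.mem_zpowers g)) c
    have hneg : ∀ x : AlgebraicClosure ℚ, x ≠ 0 → ¬ (-x = x) := by
      intro x hx h
      have h1 : (2 : AlgebraicClosure ℚ) * x = 0 := by linear_combination -h
      rcases mul_eq_zero.mp h1 with h2 | h2
      · norm_num at h2
      · exact hx h2
    have ht0 : t ≠ 0 := by
      rintro rfl
      have h1 : (φ : K.F →+* AlgebraicClosure ℚ) (b : K.F) = 0 := by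
        rw [← ht]
        norm_num
      exact b.ne_zero ((map_eq_zero _).1 h1)
    simp only [hz]
    rcases hg a s hs with h1 | h1 <;> rcases hg b t ht with h2 | h2
    · simp [h1, h2]
    · simp [h1, h2, hneg t ht0]
      exact hneg _ (mul_ne_zero hs0 ht0)
    · simp [h1, h2, hneg s hs0]
      exact hneg _ (mul_ne_zero hs0 ht0)
    · simp [h1, h2, hneg s hs0, hneg t ht0]
  · have e1 : (∀ u ∈ U, u s = s) := h
    have e2 : (∀ u ∈ U, u (s * t) = s * t) ↔ ∀ u ∈ U, u t = t := by
      refine forall₂_congr fun u hu => ?_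
      rw [map_mul, h u hu]
      exact ⟨fun h3 => mul_left_cancel₀ hs0 h3, fun h3 => by rw [h3]⟩
    rw [if_pos e1, if_congr e2 rfl rfl]
    split_ifs <;> norm_num

end Pool.Agent.MD
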