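import Pool.Agent.MD.L.Fix

/-!
# MD/L-FixT: the subgroups at `T` fix the square roots of local squares at `T`

PLAN.  `fix_T`: `U ∈ famT T`: either `Cyc U`, or `l ∈ T` and `cj a U ≤ decomp ℚ_[l] (emb l)`, `cj a U = a⁻¹ U a`.  Let `φ' = a⁻¹ • φ`, `s' = a⁻¹ s`; `exists_isPl l φ'` gives `w` with `IsPl l φ' w`, `(l : 𝓞 K) ∈ w` (`isPl_mem`), so `w` is
not away from `T` and `LSq w x`; for `u ∈ U`: `a⁻¹ u a ∈ decomp ∩ stb φ'`, so it fixes `s'`, so `u s = s`.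
-/

namespace Pool.Agent.MD

open NumberField IsDedekindDomain Pool.Agent.HWR Pool.Agent.QD Pool.Agent.H73.DU
  Pool.Agent.H73.AL Pool.Agent.LD

theorem fix_T (T : Finset ℕ) {K : Type} [Field K] [NumberField K]
    (φ : K →+* AlgebraicClosure ℚ) (x : Kˣ) (s : AlgebraicClosure ℚ) (hs : s ^ 2 = φ (x : K))
    (hx : ∀ v : HeightOneSpectrum (𝓞 K), ¬ Away K T v → LSq v x) (U : Subgroup GQ)
    (hU : U ∈ famT T) (hUφ : U ≤ stb φ) : Cyc U ∨ ∀ g ∈ U, g s = s := by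
  rcases hU with hc | ⟨l, hl, a, hlT, ha⟩
  · exact Or.inl hc
  · refine Or.inr fun g hg => ?_
    haveI := hl
    obtain ⟨w, hw⟩ := exists_isPl l (a⁻¹ • φ)
    have h1 : ¬ Away K T w := fun h => h l hlT (isPl_mem hw)
    have hs' : (a⁻¹ s) ^ 2 = (a⁻¹ • φ) (x : K) := by
      rw [← map_pow, hs]
      rfl
    have hd : a⁻¹ * g * a ∈ decomp ℚ_[l] (emb l) := ha (mem_cj hg)
    have hgφ : g • φ = φ := hUφ hg
    have hst : a⁻¹ * g * a ∈ stb (a⁻¹ • φ) := by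
      change (a⁻¹ * g * a) • a⁻¹ • φ = a⁻¹ • φ
      rw [smul_smul, mul_assoc, mul_inv_cancel, mul_one, ← smul_smul, hgφ]
    have h2 := fix_of_lsq l (a⁻¹ • φ) hw x (a⁻¹ s) hs' (hx w h1) _ hd hst
    have h3 : (a⁻¹ * g * a) (a⁻¹ s) = a⁻¹ (g s) := by
      have h4 : a⁻¹ * g * a * a⁻¹ = a⁻¹ * g := by group
      calc (a⁻¹ * g * a) (a⁻¹ s) = (a⁻¹ * g * a * a⁻¹) s := rfl
        _ = (a⁻¹ * g) s := by rw [h4]
        _ = a⁻¹ (g s) := rfl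
    rw [h3] at h2
    exact (a⁻¹).injective h2

end Pool.Agent.MD
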